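import Pool.Agent.V11182.SatLinear

/-!
# The induced saturation number of a disjoint union of chains is at most linear
-/

namespace Pool.Agent.Results.MP_2b57cc_co.LinearBound

open Finset Pool.Agent.V11182.SatBase Pool.Agent.V11182.SatLinear

/-- the induced saturation number `sat*(n, P)`: the least size of an induced `P`-saturated family
of subsets of an `n`-set -/
noncomputable def satNum (P : Type) [PartialOrder P] (n : ℕ) : ℕ :=
  sInf {c | ∃ F : Finset (Finset (Fin n)), IsSaturated P F ∧ F.card = c}

/-- the disjoint union of chains `C_{i 0} + ⋯ + C_{i (m - 1)}` (elements of different chains are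
incomparable) -/
abbrev ChainSum {m : ℕ} (i : Fin m → ℕ) : Type := Σ j : Fin m, Fin (i j)

lemma card_Y (v k : ℕ) : (Y v k).card ≤ (v + 1) * 2 ^ k + 2 * (v + 1) := by
  classical
  have h1 : Y v k ⊆ (((univ : Finset (Fin (v + 1))) ×ˢ (univ : Finset (Finset (Fin k)))).image
      (fun q => (univ : Finset (Fin v)).filter (fun a => (a : ℕ) < q.1 ∨
        ∃ s : Fin k, s ∈ q.2 ∧ (a : ℕ) = q.1 + s))) ∪
      (insert ∅ ((univ : Finset (Fin v)).image (fun a => {a})) ∪
        insert univ ((univ : Finset (Fin v)).image (fun a => {a}ᶜ))) := by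
    intro X hX
    simp only [Y, mem_filter, mem_univ, true_and] at hX
    rw [mem_union, mem_union]
    rcases hX with hX | hX | hX
    · left
      rw [mem_image]
      by_cases hu : X = univ
      · refine ⟨(Fin.last v, ∅), by simp, ?_⟩
        rw [hu]
        ext a
        have := a.2
        simp
      · have hne : Xᶜ.Nonempty := by
          rw [nonempty_iff_ne_empty]
          intro h
          exact hu (by rwa [compl_eq_empty_iff] at h)
        obtain ⟨c, hc, hmin⟩ := exists_min_image Xᶜ (fun a => (a : ℕ)) hne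
        rw [mem_compl] at hc
        refine ⟨(⟨c, by omega⟩, univ.filter (fun s : Fin k => ∃ x ∈ X, (x : ℕ) = c + s)),
          by simp, ?_⟩
        ext a
        simp only [mem_filter, mem_univ, true_and]
        constructor
        · rintro (h | ⟨s, ⟨x, hx, hxs⟩, has⟩)
          · by_contra hcon
            have := hmin a (by simpa using hcon)
            omega
          · have : a = x := Fin.ext (by omega)
            rw [this]
            exact hx
        · intro ha
          by_cases h : (a : ℕ) < c
          · left; exact h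
          · right
            have h2 := hX a ha c hc
            exact ⟨⟨(a : ℕ) - c, by omega⟩, ⟨a, ha, by simp only; omega⟩, by simp only; omega⟩
    · right; left
      rw [mem_insert]
      rcases Nat.le_one_iff_eq_zero_or_eq_one.1 hX with h | h
      · left; exact card_eq_zero.1 h
      · right
        obtain ⟨a, ha⟩ := card_eq_one.1 h
        rw [mem_image]
        exact ⟨a, mem_univ _, ha.symm⟩
    · right; right
      rw [mem_insert]
      rcases Nat.le_one_iff_eq_zero_or_eq_one.1 hX with h | h
      · left
        rw [card_eq_zero, compl_eq_empty_iff] at h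
        exact h
      · right
        obtain ⟨a, ha⟩ := card_eq_one.1 h
        rw [mem_image]
        refine ⟨a, mem_univ _, ?_⟩
        rw [← ha, compl_compl]
  have h2 := card_le_card h1
  refine h2.trans ?_
  refine (card_union_le _ _).trans ?_
  refine Nat.add_le_add ?_ ?_
  · refine card_image_le.trans ?_
    rw [card_product]
    simp
  · refine (card_union_le _ _).trans ?_
    have a1 : (insert ∅ ((univ : Finset (Fin v)).image (fun a => ({a} : Finset (Fin v))))).card ≤
        v + 1 := by
      refine (card_insert_le _ _).trans ?_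
      have := card_image_le (s := (univ : Finset (Fin v))) (f := fun a => ({a} : Finset (Fin v)))
      simp only [card_univ, Fintype.card_fin] at this
      omega
    have a2 : (insert univ ((univ : Finset (Fin v)).image (fun a => ({a}ᶜ : Finset (Fin v))))).card ≤
        v + 1 := by
      refine (card_insert_le _ _).trans ?_
      have := card_image_le (s := (univ : Finset (Fin v))) (f := fun a => ({a}ᶜ : Finset (Fin v)))
      simp only [card_univ, Fintype.card_fin] at this
      omega
    omega

/-- subsets of a union of two blocks -/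
noncomputable def splitIso (w v : ℕ) :
    Finset (Fin w) × Finset (Fin v) ≃o Finset (Fin (w + v)) :=
  (Finset.sumEquiv (α := Fin w) (β := Fin v)).symm.trans
    { toEquiv := finSumFinEquiv.finsetCongr
      map_rel_iff' := by
        intro a b
        simp only [Equiv.finsetCongr_apply]
        exact map_subset_map }

lemma sat_of_blocks {m : ℕ} (i : Fin m → ℕ) (k v : ℕ) (hk : 1 ≤ k) (hv : 3 ≤ v)
    (hik : ∀ j, i j ≤ k) (j0 : Fin m) (hj0 : i j0 = k) :
    ∃ F : Finset (Finset (Fin (m + k + v))), IsSaturated (ChainSum i) F ∧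
      F.card ≤ 2 ^ (m + k) * ((v + 1) * 2 ^ k + 2 * (v + 1)) := by
  classical
  obtain ⟨F, hF, hFE⟩ := exists_sat (ChainSum i) _ _ (base_sub (v := v) i hk j0)
    (free hv hk i j0 hj0) (by
      rintro ⟨T, X⟩ hG
      rw [mem_product, not_and] at hG
      exact creates hk i hik j0 T X (hG (mem_univ _)))
  refine ⟨_, hF.map (splitIso (m + k) v), ?_⟩
  rw [card_map]
  refine (card_le_card hFE).trans ?_
  rw [card_product]
  have : (univ : Finset (Finset (Fin (m + k)))).card = 2 ^ (m + k) := by simp
  rw [this]
  exact Nat.mul_le_mul_left _ (card_Y v k)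

/-- **Answer to Q1 (yes).** For all `m ≥ 1` and all `i 0, …, i (m - 1) ≥ 1` there is a constant
`C` such that `sat*(n, C_{i 0} + ⋯ + C_{i (m - 1)}) ≤ C * n` for every `n ≥ 1` (the set of sizes
of saturated families being nonempty). -/
theorem result (m : ℕ) (hm : 1 ≤ m) (i : Fin m → ℕ) (hi : ∀ j, 1 ≤ i j) :
    ∃ C : ℕ, ∀ n : ℕ, 1 ≤ n →
      (∃ F : Finset (Finset (Fin n)), IsSaturated (ChainSum i) F) ∧
        satNum (ChainSum i) n ≤ C * n := by
  classical
  obtain ⟨j0, -, hj0⟩ := exists_max_image (univ : Finset (Fin m)) i ⟨⟨0, hm⟩, mem_univ _⟩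
  have hmax : ∀ j, i j ≤ i j0 := fun j => hj0 j (mem_univ _)
  set k := i j0 with hkdef
  have hk : 1 ≤ k := hi j0
  refine ⟨2 ^ (m + k) * (2 ^ k + 2) + 2 ^ (m + k + 3), ?_⟩
  intro n hn
  have key : ∃ F : Finset (Finset (Fin n)), IsSaturated (ChainSum i) F ∧
      F.card ≤ (2 ^ (m + k) * (2 ^ k + 2) + 2 ^ (m + k + 3)) * n := by
    by_cases hnk : m + k + 3 ≤ n
    · obtain ⟨v, rfl⟩ : ∃ v, n = m + k + v := ⟨n - (m + k), by omega⟩
      obtain ⟨F, hF, hc⟩ := sat_of_blocks i k v hk (by omega) hmax j0 rfl
      refine ⟨F, hF, hc.trans ?_⟩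
      have h1 : (v + 1) * 2 ^ k + 2 * (v + 1) = (2 ^ k + 2) * (v + 1) := by ring
      rw [h1, ← mul_assoc]
      refine Nat.mul_le_mul ?_ ?_
      · exact Nat.le_add_right _ _
      · omega
    · obtain ⟨F, hF, -⟩ := exists_sat (ChainSum i) (∅ : Finset (Finset (Fin n))) univ
        (empty_subset _) (by
          rintro ⟨f, hf⟩
          exact absurd (hf ⟨j0, ⟨0, hk⟩⟩) (notMem_empty _)) (by
          intro G hG
          exact absurd (mem_univ G) hG)
      refine ⟨F, hF, ?_⟩
      have h1 : F.card ≤ 2 ^ n := by
        have := card_le_univ F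
        simpa using this
      have h2 : 2 ^ n ≤ 2 ^ (m + k + 3) := Nat.pow_le_pow_right (by norm_num) (by omega)
      calc F.card ≤ 2 ^ (m + k + 3) := h1.trans h2
        _ ≤ 2 ^ (m + k) * (2 ^ k + 2) + 2 ^ (m + k + 3) := Nat.le_add_left _ _
        _ ≤ _ := Nat.le_mul_of_pos_right _ hn
  obtain ⟨F, hF, hc⟩ := key
  have h3 : satNum (ChainSum i) n ≤ F.card := Nat.sInf_le ⟨F, hF, rfl⟩
  exact ⟨⟨F, hF⟩, h3.trans hc⟩

end Pool.Agent.Results.MP_2b57cc_co.LinearBound
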